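import Pool.Agent.ANR.Stmts

/-!
# Release of a block, row DIR (helper77): the Dirichlet problem
-/

set_option autoImplicit false

open scoped BigOperators ComplexConjugate

noncomputable section

namespace Pool.Agent.ANR.H77

variable {X : Type} [Fintype X] [DecidableEq X]

theorem opv_add (H : Matrix X X ℝ) (κ : X → ℝ) (φ ψ : X → ℂ) (x : X) :
    opv H κ (φ + ψ) x = opv H κ φ x + opv H κ ψ x := by
  unfold opv
  have h : ∀ y, (H x y : ℂ) * (φ + ψ) y = (H x y : ℂ) * φ y + (H x y : ℂ) * ψ y :=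
    fun y => mul_add _ _ _
  rw [Finset.sum_congr rfl fun y _ => h y, Finset.sum_add_distrib, Pi.add_apply]
  ring

theorem opv_smul (H : Matrix X X ℝ) (κ : X → ℝ) (c : ℂ) (ψ : X → ℂ) (x : X) :
    opv H κ (c • ψ) x = c * opv H κ ψ x := by
  unfold opv
  have h : ∀ y, (H x y : ℂ) * (c • ψ) y = c * ((H x y : ℂ) * ψ y) := by
    intro y
    rw [Pi.smul_apply, smul_eq_mul]
    ring
  rw [Finset.sum_congr rfl fun y _ => h y, ← Finset.mul_sum, Pi.smul_apply, smul_eq_mul]
  ring

/-- `ψ` on `F`, `opv H κ ψ` off `F` -/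
def Bm (H : Matrix X X ℝ) (κ : X → ℝ) (F : Finset X) : (X → ℂ) →ₗ[ℂ] (X → ℂ) where
  toFun ψ x := if x ∈ F then ψ x else opv H κ ψ x
  map_add' φ ψ := by
    funext x
    change (if x ∈ F then (φ + ψ) x else opv H κ (φ + ψ) x) =
      (if x ∈ F then φ x else opv H κ φ x) + (if x ∈ F then ψ x else opv H κ ψ x)
    split_ifs
    · rfl
    · exact opv_add H κ φ ψ x
  map_smul' c ψ := by
    funext x
    change (if x ∈ F then (c • ψ) x else opv H κ (c • ψ) x) =
      c * (if x ∈ F then ψ x else opv H κ ψ x)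
    split_ifs
    · rfl
    · exact opv_smul H κ c ψ x

theorem Bm_apply (H : Matrix X X ℝ) (κ : X → ℝ) (F : Finset X) (ψ : X → ℂ) (x : X) :
    Bm H κ F ψ x = if x ∈ F then ψ x else opv H κ ψ x := rfl

/-- DIR -/
theorem dir (hGrn : GrnStmt) : DirStmt := by
  intro X _ _ H κ F hN f h
  have hinj : Function.Injective (Bm H κ F) := by
    rw [← LinearMap.ker_eq_bot, LinearMap.ker_eq_bot']
    intro ψ hψ
    have h1 : ∀ x, conj (ψ x) * opv H κ ψ x = 0 := by
      intro x
      have h2 : Bm H κ F ψ x = 0 := by rw [hψ]; rfl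
      rw [Bm_apply] at h2
      split_ifs at h2 with hx
      · rw [h2, map_zero, zero_mul]
      · rw [h2, mul_zero]
    have h3 := (hGrn X H κ hN).2 ψ
    rw [Finset.sum_eq_zero fun x _ => h1 x, Complex.zero_im, eq_comm, neg_eq_zero] at h3
    have h4 := (Finset.sum_eq_zero_iff_of_nonneg fun x _ =>
      mul_nonneg (hN.pos x).le (sq_nonneg ‖ψ x‖)).1 h3
    funext x
    have h5 := (mul_eq_zero.1 (h4 x (Finset.mem_univ x))).resolve_left (hN.pos x).ne'
    exact norm_eq_zero.1 (pow_eq_zero_iff (two_ne_zero)|>.1 h5)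
  have hsur := LinearMap.injective_iff_surjective.1 hinj
  obtain ⟨ψ, hψ⟩ := hsur fun x => if x ∈ F then f x else h x
  refine ⟨ψ, ⟨?_, ?_⟩, ?_⟩
  · intro b hb
    have h1 := congrFun hψ b
    rw [Bm_apply, if_pos hb, if_pos hb] at h1
    exact h1
  · intro x hx
    have h1 := congrFun hψ x
    rw [Bm_apply, if_neg hx, if_neg hx] at h1
    exact h1
  · rintro φ ⟨h1, h2⟩
    apply hinj
    rw [hψ]
    funext x
    rw [Bm_apply]
    split_ifs with hx
    · exact h1 x hx
    · exact h2 x hx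

end Pool.Agent.ANR.H77
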